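import Pool.Agent.Helper7.EC_E.GoalsR

/-!
# MP_ecc237_nt, PART E, packet FE: the main sums for `E_0`, `E_2`
-/

set_option autoImplicit false

open MeasureTheory Filter Topology Set

namespace EC237.ZE.PkFE

theorem refl_sum (F : ℤ → ℂ) (k : ℤ) (hF : Summable F) :
    2 * ∑' n, F n = ∑' n, (F n + F (k - n)) := by
  have h1 : ∑' n, F (k - n) = ∑' n, F n := (Equiv.subLeft k).tsum_eq F
  have h2 : Summable (fun n => F (k - n)) := (Equiv.subLeft k).summable_iff.2 hF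
  rw [hF.tsum_add h2, h1]; ring

/-- indicator of `a`. -/
noncomputable def dl (a n : ℤ) : ℂ := if n = a then 1 else 0

theorem hasSum_dl (a : ℤ) (G : ℤ → ℂ) : HasSum (fun n => dl a n * G n) (G a) := by
  have h : HasSum (fun n => dl a n * G n) (dl a a * G a) := by
    apply hasSum_single a
    intro b hb
    simp [dl, hb]
  simpa [dl] using h

theorem la_eq (v : ℝ) (n : ℤ) :
    la v n = v * dl 0 n + Complex.I * (Real.pi / 6) * (n.sign:ℂ) := by
  by_cases h : n = 0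
  · subst h
    simp [la, dl]
  · simp [la, dl, h]

theorem lb_eq (v : ℝ) (n : ℤ) :
    lb v n = v * dl 0 n - Complex.I * (Real.pi / 6) * (n.sign:ℂ) := by
  by_cases h : n = 0
  · subst h
    simp [lb, dl]
  · simp [lb, dl, h]

theorem l0_eq (v : ℝ) (n : ℤ) : l0 v n = v * dl 0 n := by
  by_cases h : n = 0
  · subst h
    simp [l0, dl]
  · simp [l0, dl, h]

theorem dl_sub (k n : ℤ) : dl 0 (k - n) = dl k n := by
  unfold dl
  by_cases h : n = k
  · subst h; simp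
  · have : k - n ≠ 0 := fun h' => h (by omega)
    simp [h, this]

theorem star_dl (k n : ℤ) : star (dl k n) = dl k n := by
  unfold dl
  split <;> simp

theorem star_Dz (z : ℝ) (s : ℤ × ℤ) (n : ℤ) : star (Dz z s n) = Dz z s (s.1 - n) := by
  unfold Dz
  simp [Complex.ext_iff]
  ring

/-- `M0'` in closed form. -/
theorem M0_eq (z : ℝ) (s : ℤ × ℤ) (n : ℤ) :
    M0' z s n = (w1 * (dl 0 n - dl s.1 n) +
      Complex.I * (Real.pi / 6) * ((n.sign:ℂ) - ((s.1 - n).sign:ℂ))) / Dz z s n := by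
  unfold M0'
  rw [la_eq, lb_eq, dl_sub]
  push_cast
  ring

theorem M2_eq (z : ℝ) (s : ℤ × ℤ) (n : ℤ) :
    M2' z s n = Z13 * (dl 0 n - dl s.1 n) / Dz z s n +
      2 * ((Real.pi ^ 2 / 9) * (dl 0 n + dl s.1 n)) / Dz z s n ^ 2 +
      4 * (w1 * (dl 0 n - dl s.1 n) +
      Complex.I * (Real.pi / 6) * ((n.sign:ℂ) - ((s.1 - n).sign:ℂ))) / Dz z s n ^ 3 := by
  unfold M2'
  rw [la_eq, lb_eq, l0_eq, l0_eq, l0_eq, l0_eq, dl_sub]
  push_cast
  ring

theorem dl_k (k n : ℤ) : dl k (k - n) = dl 0 n := by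
  have := dl_sub k (k - n)
  rw [← this]
  congr 1
  ring

theorem M0_star (z : ℝ) (s : ℤ × ℤ) (n : ℤ) :
    star (M0' z s (s.1 - n)) = (w1 * (dl s.1 n - dl 0 n) -
      Complex.I * (Real.pi / 6) * (((s.1 - n).sign:ℂ) - (n.sign:ℂ))) / Dz z s n := by
  rw [M0_eq, dl_sub, dl_k, star_div₀, star_Dz]
  have e : s.1 - (s.1 - n) = n := by ring
  rw [e]
  congr 1
  rw [star_add, star_mul', star_mul', star_sub, star_dl, star_dl, star_mul', star_sub]
  simp
  ring

theorem M2_star (z : ℝ) (s : ℤ × ℤ) (n : ℤ) :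
    star (M2' z s (s.1 - n)) = Z13 * (dl s.1 n - dl 0 n) / Dz z s n +
      2 * ((Real.pi ^ 2 / 9) * (dl 0 n + dl s.1 n)) / Dz z s n ^ 2 +
      4 * (w1 * (dl s.1 n - dl 0 n) -
      Complex.I * (Real.pi / 6) * (((s.1 - n).sign:ℂ) - (n.sign:ℂ))) / Dz z s n ^ 3 := by
  rw [M2_eq, dl_sub, dl_k]
  have e : s.1 - (s.1 - n) = n := by ring
  rw [star_add, star_add, star_div₀, star_div₀, star_div₀, star_pow, star_pow, star_Dz, e]
  congr 1
  · congr 1
    · congr 1
      rw [star_mul', star_sub, star_dl, star_dl]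
      simp
    · congr 1
      rw [star_mul', star_mul', star_add, star_dl, star_dl]
      simp
      ring
  · congr 1
    rw [star_mul', star_add, star_mul', star_mul', star_sub, star_dl, star_dl, star_mul', star_sub]
    simp
    ring

/-- pairing for `E_0`. -/
theorem pair0 (z : ℝ) (s : ℤ × ℤ) (n : ℤ) :
    (M0' z s n - star (M0' z s n)) + (M0' z s (s.1 - n) - star (M0' z s (s.1 - n))) =
      dl 0 n * (2 * w1 * (1 / Dz z s n - 1 / star (Dz z s n))) -
      dl s.1 n * (2 * w1 * (1 / Dz z s n - 1 / star (Dz z s n))) := by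
  have h1 : M0' z s n - star (M0' z s (s.1 - n)) =
      2 * w1 * (dl 0 n - dl s.1 n) * (1 / Dz z s n) := by
    rw [M0_star, M0_eq]
    ring
  have h2 : M0' z s (s.1 - n) - star (M0' z s n) =
      -(2 * w1 * (dl 0 n - dl s.1 n) * (1 / star (Dz z s n))) := by
    have h3 := congrArg star h1
    rw [star_sub, star_star] at h3
    have h4 : star (2 * (w1:ℂ) * (dl 0 n - dl s.1 n) * (1 / Dz z s n)) =
        2 * w1 * (dl 0 n - dl s.1 n) * (1 / star (Dz z s n)) := by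
      rw [star_mul', star_mul', star_sub, star_dl, star_dl, star_div₀]
      simp
    rw [h4] at h3
    linear_combination -h3
  linear_combination h1 + h2

/-- pairing for `E_2`. -/
theorem pair2 (z : ℝ) (s : ℤ × ℤ) (n : ℤ) :
    (M2' z s n - star (M2' z s n)) + (M2' z s (s.1 - n) - star (M2' z s (s.1 - n))) =
      dl 0 n * (2 * Z13 * (1 / Dz z s n - 1 / star (Dz z s n)) +
        8 * w1 * (1 / Dz z s n ^ 3 - 1 / star (Dz z s n) ^ 3)) -
      dl s.1 n * (2 * Z13 * (1 / Dz z s n - 1 / star (Dz z s n)) +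
        8 * w1 * (1 / Dz z s n ^ 3 - 1 / star (Dz z s n) ^ 3)) := by
  have h1 : M2' z s n - star (M2' z s (s.1 - n)) =
      (dl 0 n - dl s.1 n) * (2 * Z13 * (1 / Dz z s n) + 8 * w1 * (1 / Dz z s n ^ 3)) := by
    rw [M2_star, M2_eq]
    ring
  have h2 : M2' z s (s.1 - n) - star (M2' z s n) =
      -((dl 0 n - dl s.1 n) * (2 * Z13 * (1 / star (Dz z s n)) +
        8 * w1 * (1 / star (Dz z s n) ^ 3))) := by
    have h3 := congrArg star h1
    rw [star_sub, star_star] at h3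
    have h4 : star ((dl 0 n - dl s.1 n) * (2 * (Z13:ℂ) * (1 / Dz z s n) +
        8 * w1 * (1 / Dz z s n ^ 3))) =
        (dl 0 n - dl s.1 n) * (2 * Z13 * (1 / star (Dz z s n)) +
        8 * w1 * (1 / star (Dz z s n) ^ 3)) := by
      rw [star_mul', star_sub, star_dl, star_dl, star_add, star_mul', star_mul', star_div₀,
        star_mul', star_mul', star_div₀, star_pow]
      simp
    rw [h4] at h3
    linear_combination -h3
  linear_combination h1 + h2

theorem Dz_zero (z : ℝ) (s : ℤ × ℤ) : Dz z s 0 = (s.2:ℂ) + Complex.I * (s.1:ℂ) * z := by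
  unfold Dz
  push_cast
  ring

theorem Dz_star_zero (z : ℝ) (s : ℤ × ℤ) :
    star (Dz z s 0) = (s.2:ℂ) - Complex.I * (s.1:ℂ) * z := by
  rw [star_Dz]
  unfold Dz
  push_cast
  ring

theorem Dz_k (z : ℝ) (s : ℤ × ℤ) : Dz z s s.1 = star (Dz z s 0) := by
  rw [star_Dz]
  congr 1
  ring

theorem Dz0_ne (z : ℝ) (hz : 0 < z) (s : ℤ × ℤ) (hs : s ≠ 0) : Dz z s 0 ≠ 0 := by
  rw [Dz_zero]
  intro h
  have hre := congrArg Complex.re h
  have him := congrArg Complex.im h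
  simp at hre him
  rcases him with h1 | h1
  · exact hs (Prod.ext h1 hre)
  · exact hz.ne' h1

theorem Dzs_ne (z : ℝ) (hz : 0 < z) (s : ℤ × ℤ) (hs : s ≠ 0) : star (Dz z s 0) ≠ 0 := by
  intro h
  exact Dz0_ne z hz s hs (by simpa using congrArg star h)

theorem sum0 (z : ℝ) (s : ℤ × ℤ)
    (hS : Summable (fun n : ℤ => M0' z s n - star (M0' z s n))) :
    ∑' n : ℤ, (M0' z s n - star (M0' z s n)) =
      2 * w1 * (1 / Dz z s 0 - 1 / star (Dz z s 0)) := by
  have h := refl_sum _ s.1 hS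
  have h2 : (fun n : ℤ => (M0' z s n - star (M0' z s n)) +
      (M0' z s (s.1 - n) - star (M0' z s (s.1 - n)))) = fun n =>
      dl 0 n * (2 * w1 * (1 / Dz z s n - 1 / star (Dz z s n))) -
      dl s.1 n * (2 * w1 * (1 / Dz z s n - 1 / star (Dz z s n))) := by
    funext n
    exact pair0 z s n
  have h3 := (hasSum_dl 0 (fun n => 2 * w1 * (1 / Dz z s n - 1 / star (Dz z s n)))).sub
    (hasSum_dl s.1 (fun n => 2 * w1 * (1 / Dz z s n - 1 / star (Dz z s n))))
  rw [h2, h3.tsum_eq, Dz_k, star_star] at h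
  linear_combination h / 2

theorem sum2 (z : ℝ) (s : ℤ × ℤ)
    (hS : Summable (fun n : ℤ => M2' z s n - star (M2' z s n))) :
    ∑' n : ℤ, (M2' z s n - star (M2' z s n)) =
      2 * Z13 * (1 / Dz z s 0 - 1 / star (Dz z s 0)) +
        8 * w1 * (1 / Dz z s 0 ^ 3 - 1 / star (Dz z s 0) ^ 3) := by
  have h := refl_sum _ s.1 hS
  have h2 : (fun n : ℤ => (M2' z s n - star (M2' z s n)) +
      (M2' z s (s.1 - n) - star (M2' z s (s.1 - n)))) = fun n =>
      dl 0 n * (2 * Z13 * (1 / Dz z s n - 1 / star (Dz z s n)) +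
        8 * w1 * (1 / Dz z s n ^ 3 - 1 / star (Dz z s n) ^ 3)) -
      dl s.1 n * (2 * Z13 * (1 / Dz z s n - 1 / star (Dz z s n)) +
        8 * w1 * (1 / Dz z s n ^ 3 - 1 / star (Dz z s n) ^ 3)) := by
    funext n
    exact pair2 z s n
  have h3 := (hasSum_dl 0 (fun n => 2 * Z13 * (1 / Dz z s n - 1 / star (Dz z s n)) +
        8 * w1 * (1 / Dz z s n ^ 3 - 1 / star (Dz z s n) ^ 3))).sub
    (hasSum_dl s.1 (fun n => 2 * Z13 * (1 / Dz z s n - 1 / star (Dz z s n)) +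
        8 * w1 * (1 / Dz z s n ^ 3 - 1 / star (Dz z s n) ^ 3)))
  rw [h2, h3.tsum_eq, Dz_k, star_star] at h
  linear_combination h / 2

theorem fin0 (z m k I w : ℂ) (hI : I ^ 2 = -1) (hz : z ≠ 0) (h1 : m + I * k * z ≠ 0)
    (h2 : m - I * k * z ≠ 0) :
    z ^ 2 * (2 * w * (1 / (m + I * k * z) - 1 / (m - I * k * z))) =
      I * z ^ 2 * (-(4 * w) * z⁻¹ * (k / ((m / z) ^ 2 + k ^ 2))) := by
  have h3 : (m / z) ^ 2 + k ^ 2 = (m + I * k * z) * (m - I * k * z) / z ^ 2 := by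
    field_simp
    linear_combination k ^ 2 * z ^ 2 * hI
  have h4 : 1 / (m + I * k * z) - 1 / (m - I * k * z) =
      -2 * I * k * z / ((m + I * k * z) * (m - I * k * z)) := by
    field_simp
    ring
  rw [h4, h3]
  set N : ℂ := (m + I * k * z) * (m - I * k * z) with hN
  have hN0 : N ≠ 0 := mul_ne_zero h1 h2
  field_simp
  ring

theorem fin2 (z m k I w v : ℂ) (hI : I ^ 2 = -1) (hz : z ≠ 0) (h1 : m + I * k * z ≠ 0)
    (h2 : m - I * k * z ≠ 0) :
    -z ^ 4 * (2 * v * (1 / (m + I * k * z) - 1 / (m - I * k * z)) +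
      8 * w * (1 / (m + I * k * z) ^ 3 - 1 / (m - I * k * z) ^ 3)) =
      I * z ^ 2 * (-(8 * w) * z⁻¹ * ((2 * k ^ 3 - 6 * k * (m / z) ^ 2) /
        ((m / z) ^ 2 + k ^ 2) ^ 3) + 4 * v * z * (k / ((m / z) ^ 2 + k ^ 2))) := by
  have h3 : (m / z) ^ 2 + k ^ 2 = (m + I * k * z) * (m - I * k * z) / z ^ 2 := by
    field_simp
    linear_combination k ^ 2 * z ^ 2 * hI
  have h4 : 1 / (m + I * k * z) - 1 / (m - I * k * z) =
      -2 * I * k * z / ((m + I * k * z) * (m - I * k * z)) := by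
    field_simp
    ring
  have h5 : 1 / (m + I * k * z) ^ 3 - 1 / (m - I * k * z) ^ 3 =
      -2 * I * (3 * m ^ 2 * k * z - k ^ 3 * z ^ 3) /
        ((m + I * k * z) * (m - I * k * z)) ^ 3 := by
    have h6 : (m - I * k * z) ^ 3 - (m + I * k * z) ^ 3 =
        -2 * I * (3 * m ^ 2 * k * z - k ^ 3 * z ^ 3) := by
      linear_combination (-2 * I * k ^ 3 * z ^ 3) * hI
    rw [← h6, mul_pow]
    field_simp
  rw [h4, h5, h3]
  set N : ℂ := (m + I * k * z) * (m - I * k * z) with hN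
  have hN0 : N ≠ 0 := mul_ne_zero h1 h2
  field_simp
  ring

theorem thm : EC237.ZE.G_FE := by
  intro z hz s hs h0 h2
  have hzc : (z:ℂ) ≠ 0 := by exact_mod_cast hz.ne'
  have hS0 : Summable (fun n : ℤ => M0' z s n - star (M0' z s n)) := by
    have := h0.mul_left (((z:ℂ) ^ 2)⁻¹)
    refine this.congr ?_
    intro n
    field_simp
  have hS2 : Summable (fun n : ℤ => M2' z s n - star (M2' z s n)) := by
    have := h2.mul_left ((-(z:ℂ) ^ 4)⁻¹)
    refine this.congr ?_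
    intro n
    field_simp
  have hne1 := Dz0_ne z hz s hs
  have hne2 := Dzs_ne z hz s hs
  rw [tsum_mul_left, tsum_mul_left, sum0 z s hS0, sum2 z s hS2]
  rw [Dz_star_zero] at hne2 ⊢
  rw [Dz_zero] at hne1 ⊢
  refine ⟨?_, ?_⟩
  · have := fin0 (z:ℂ) (s.2:ℂ) (s.1:ℂ) Complex.I (w1:ℂ) Complex.I_sq hzc hne1 hne2
    rw [this]
    unfold e0M ph tz
    ring
  · have := fin2 (z:ℂ) (s.2:ℂ) (s.1:ℂ) Complex.I (w1:ℂ) (Z13:ℂ) Complex.I_sq hzc hne1 hne2
    rw [this]
    unfold e2M ph ph2 tz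
    ring

end EC237.ZE.PkFE
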